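import Mathlib

set_option autoImplicit false
set_option linter.unusedSectionVars false
set_option linter.unusedVariables false

namespace Pool.Agent.Results.MP_053bca_co.AllNonabelian

section Aux

def Adm (G : Type) [Group G] : Prop :=
  ∃ θ : Equiv.Perm G, ∃ z : G, ∀ y, (∃ x, x * θ x = y) ↔ y ≠ z

variable {G : Type} [Group G] [Finite G]

lemma sq_bij (h : Odd (Nat.card G)) : Function.Bijective (fun x : G => x * x) := by
  have := (powCoprime (n := 2) (G := G) ((Nat.coprime_two_right).2 h)).bijective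
  convert this using 1
  funext x
  simp [powCoprime, pow_two]

lemma sqrt_mem (h : Odd (Nat.card G)) (H : Subgroup G) {x : G} (hx : x * x ∈ H) : x ∈ H := by
  obtain ⟨k, hk⟩ := h
  have h1 : x = (x * x) ^ (k + 1) := by
    rw [← pow_two, ← pow_mul, show 2 * (k + 1) = (2 * k + 1) + 1 by ring, ← hk, pow_succ,
      pow_card_eq_one', one_mul]
  rw [h1]; exact H.pow_mem hx _

lemma adm_of_sub (h : Odd (Nat.card G)) (H : Subgroup G) (hH : Adm H) : Adm G := by
  classical
  obtain ⟨θ, z, hz⟩ := hH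
  refine ⟨θ.extendDomain (Equiv.refl H), z, fun y => ?_⟩
  have hin : ∀ x : H, (θ.extendDomain (Equiv.refl H)) (x : G) = θ x := fun x =>
    Equiv.Perm.extendDomain_apply_image θ (Equiv.refl H) x
  have hout : ∀ x : G, x ∉ H → (θ.extendDomain (Equiv.refl H)) x = x := fun x hx =>
    Equiv.Perm.extendDomain_apply_not_subtype θ (Equiv.refl H) hx
  constructor
  · rintro ⟨x, rfl⟩ he
    by_cases hx : x ∈ H
    · have := hin ⟨x, hx⟩
      simp only at this
      rw [this] at he
      exact (hz z).1 ⟨⟨x, hx⟩, Subtype.ext he⟩ rfl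
    · rw [hout x hx] at he
      exact hx (sqrt_mem h H (he ▸ z.2))
  · intro hy
    by_cases hyH : y ∈ H
    · obtain ⟨x, hx⟩ := (hz ⟨y, hyH⟩).2 (fun e => hy (congrArg Subtype.val e))
      exact ⟨x, by rw [hin x]; exact congrArg Subtype.val hx⟩
    · obtain ⟨x, hx⟩ := (sq_bij h).2 y
      have hxH : x ∉ H := fun hx' => hyH (hx ▸ H.mul_mem hx' hx')
      exact ⟨x, by rw [hout x hxH]; exact hx⟩

lemma adm_of_data (h : Odd (Nat.card G)) (q : ℕ) [NeZero q] (hq : Odd q) (k : G → ZMod q)
    (hk : ∀ a b, k (a * b) = k a + k b) (X Y : ZMod q → G) (hX : ∀ j, k (X j) = j)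
    (hY : ∀ j, k (Y j) = j) (j0 : ZMod q)
    (he : ∀ j, j ≠ j0 → X j * Y (j + 2) = X (j + 1) * Y (j + 1))
    (hne : X j0 * Y (j0 + 2) ≠ X (j0 + 1) * Y (j0 + 1)) : Adm G := by
  classical
  have hk1 : k 1 = 0 := by have := hk 1 1; simpa using this
  have hki : ∀ a, k a⁻¹ = - k a := fun a => by
    have := hk a a⁻¹
    rw [mul_inv_cancel, hk1] at this
    linear_combination -this
  let θ0 : G → G := fun g => (X (k g))⁻¹ * g * Y (k g)
  have hkθ : ∀ g, k (θ0 g) = k g := fun g => by
    simp only [θ0, hk, hki, hX, hY]; ring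
  have hθ0 : Function.Injective θ0 := by
    intro a b hab
    have h1 : k a = k b := by rw [← hkθ a, ← hkθ b, hab]
    simp only [θ0, h1] at hab
    simpa using hab
  have h2u : IsUnit (2 : ZMod q) := by
    have := (ZMod.isUnit_iff_coprime 2 q).2 ((Nat.coprime_two_left).2 hq)
    simpa using this
  have hσ0 : Function.Injective (fun g => g * θ0 g) := by
    intro a b hab
    simp only at hab
    have h1 : k a = k b := by
      have := congrArg k hab
      rw [hk a, hk b, hkθ, hkθ, ← two_mul, ← two_mul] at this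
      exact h2u.mul_left_cancel this
    simp only [θ0, h1] at hab
    have h3 : ((X (k b))⁻¹ * a) * ((X (k b))⁻¹ * a) = ((X (k b))⁻¹ * b) * ((X (k b))⁻¹ * b) := by
      have := congrArg (fun u => (X (k b))⁻¹ * u * (Y (k b))⁻¹) hab
      simpa [mul_assoc] using this
    simpa using (sq_bij h).1 h3
  have hσ0s := Finite.injective_iff_surjective.1 hσ0
  have hXi : Function.Injective X := fun a b hab => by rw [← hX a, ← hX b, hab]
  let ρ : G → G := fun g => if g = X (k g) then X (k g + 2) else g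
  have hρX : ∀ j, ρ (X j) = X (j + 2) := fun j => by simp [ρ, hX]
  have hρ : Function.Injective ρ := by
    intro a b hab
    by_cases ha : a = X (k a) <;> by_cases hb : b = X (k b)
    · simp only [ρ, if_pos ha, if_pos hb] at hab
      rw [ha, hb, add_right_cancel (hXi hab)]
    · simp only [ρ, if_pos ha, if_neg hb] at hab
      exact absurd (by rw [← hab, hX]) hb
    · simp only [ρ, if_neg ha, if_pos hb] at hab
      exact absurd (by rw [hab, hX]) ha
    · simpa only [ρ, if_neg ha, if_neg hb] using hab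
  have hθX : ∀ j, θ0 (X j) = Y j := fun j => by simp [θ0, hX]
  refine ⟨Equiv.ofBijective (θ0 ∘ ρ) (Finite.injective_iff_bijective.1 (hθ0.comp hρ)),
    X (j0 + 1) * Y (j0 + 1), fun y => ?_⟩
  simp only [Equiv.ofBijective_apply, Function.comp]
  constructor
  · rintro ⟨x, rfl⟩ hc
    by_cases hx : x = X (k x)
    · rw [hx, hρX, hθX] at hc
      by_cases hj : k x = j0
      · rw [hj] at hc; exact hne hc
      · rw [he _ hj, ← hθX, ← hθX] at hc
        exact hj (add_right_cancel (hXi (hσ0 hc)))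
    · simp only [ρ, if_neg hx] at hc
      rw [← hθX] at hc
      have := hσ0 hc
      exact hx (by rw [this, hX])
  · intro hy
    obtain ⟨g, rfl⟩ := hσ0s y
    by_cases hg : g = X (k g)
    · have hj : k g - 1 ≠ j0 := by
        intro hj
        apply hy
        have : k g = j0 + 1 := by rw [← hj]; ring
        simp only
        rw [hg, hθX, this]
      refine ⟨X (k g - 1), ?_⟩
      rw [hρX, hθX, he _ hj, sub_add_cancel, ← hθX, ← hg]
    · exact ⟨g, by simp only [ρ, if_neg hg]⟩

lemma adm_of_hom (h : Odd (Nat.card G)) (q : ℕ) (hq : Odd q) (hq3 : 3 ≤ q) (k : G → ZMod q)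
    (hk : ∀ a b, k (a * b) = k a + k b) (t u : G) (ht : k t = 1) (hu : k u = 0)
    (hc : ¬ Commute u (t ^ (q - 2))) : Adm G := by
  classical
  obtain ⟨r, rfl⟩ : ∃ r, q = r + 3 := ⟨q - 3, by omega⟩
  have hk1 : k 1 = 0 := by have := hk 1 1; simpa using this
  have hki : ∀ a, k a⁻¹ = - k a := fun a => by
    have := hk a a⁻¹
    rw [mul_inv_cancel, hk1] at this
    linear_combination -this
  have hkp : ∀ n : ℕ, k (t ^ n) = n := by
    intro n
    induction n with
    | zero => simpa using hk1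
    | succ n ih => rw [pow_succ, hk, ih, ht]; push_cast; ring
  have h0 : ((r : ZMod (r + 3)) + 3) = 0 := by
    have := ZMod.natCast_self (r + 3)
    push_cast at this; exact this
  have hval : ∀ n : ℕ, n < r + 3 → (n : ZMod (r + 3)).val = n := fun n hn => ZMod.val_cast_of_lt hn
  have hinj : ∀ n m : ℕ, n < r + 3 → m < r + 3 → (n : ZMod (r + 3)) = m → n = m := by
    intro n m hn hm e
    rw [← hval n hn, ← hval m hm, e]
  let X : ZMod (r + 3) → G := fun j =>
    if j = ((r + 2 : ℕ) : ZMod (r + 3)) then t ^ (r + 1) * u * (t ^ (r + 2))⁻¹ else t ^ j.val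
  let Y : ZMod (r + 3) → G := fun j => if j = ((0 : ℕ) : ZMod (r + 3)) then u else t ^ j.val
  have hX1 : ∀ n : ℕ, n < r + 2 → X n = t ^ n := by
    intro n hn
    have : (n : ZMod (r + 3)) ≠ ((r + 2 : ℕ) : ZMod (r + 3)) := fun e => by
      have := hinj n (r + 2) (by omega) (by omega) e; omega
    simp only [X, if_neg this, hval n (by omega)]
  have hX2 : X ((r + 2 : ℕ) : ZMod (r + 3)) = t ^ (r + 1) * u * (t ^ (r + 2))⁻¹ := by
    simp only [X, if_pos]
  have hY1 : ∀ n : ℕ, 0 < n → n < r + 3 → Y n = t ^ n := by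
    intro n hn0 hn
    have : (n : ZMod (r + 3)) ≠ ((0 : ℕ) : ZMod (r + 3)) := fun e => by
      have := hinj n 0 (by omega) (by omega) e; omega
    simp only [Y, if_neg this, hval n hn]
  have hY2 : Y ((0 : ℕ) : ZMod (r + 3)) = u := by simp only [Y, if_pos]
  refine adm_of_data h (r + 3) hq k hk X Y ?_ ?_ ((r + 2 : ℕ) : ZMod (r + 3)) ?_ ?_
  · intro j
    simp only [X]
    split_ifs with hj
    · rw [hk, hk, hki, hkp, hkp, hu, hj]; push_cast; linear_combination -h0
    · rw [hkp, ZMod.natCast_zmod_val]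
  · intro j
    simp only [Y]
    split_ifs with hj
    · rw [hu, hj]; simp
    · rw [hkp, ZMod.natCast_zmod_val]
  · intro j hj
    obtain ⟨n, hn, rfl⟩ : ∃ n : ℕ, n < r + 3 ∧ j = n := ⟨j.val, ZMod.val_lt j, (ZMod.natCast_zmod_val j).symm⟩
    have hn2 : n ≠ r + 2 := fun e => hj (by rw [e])
    by_cases hn1 : n = r + 1
    · subst hn1
      have e1 : ((r + 1 : ℕ) : ZMod (r + 3)) + 2 = ((0 : ℕ) : ZMod (r + 3)) := by
        push_cast; linear_combination h0
      have e2 : ((r + 1 : ℕ) : ZMod (r + 3)) + 1 = ((r + 2 : ℕ) : ZMod (r + 3)) := by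
        push_cast; ring
      rw [e1, e2, hX1 _ (by omega), hY2, hX2, hY1 _ (by omega) (by omega)]
      simp
    · have e1 : (n : ZMod (r + 3)) + 2 = ((n + 2 : ℕ) : ZMod (r + 3)) := by push_cast; ring
      have e2 : (n : ZMod (r + 3)) + 1 = ((n + 1 : ℕ) : ZMod (r + 3)) := by push_cast; ring
      rw [e1, e2, hX1 _ (by omega), hX1 _ (by omega), hY1 _ (by omega) (by omega),
        hY1 _ (by omega) (by omega), ← pow_add, ← pow_add]
      congr 1; ring
  · have e1 : ((r + 2 : ℕ) : ZMod (r + 3)) + 2 = ((1 : ℕ) : ZMod (r + 3)) := by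
      push_cast; linear_combination h0
    have e2 : ((r + 2 : ℕ) : ZMod (r + 3)) + 1 = ((0 : ℕ) : ZMod (r + 3)) := by
      push_cast; linear_combination h0
    rw [e1, e2, hX2, hY1 _ (by omega) (by omega), hX1 _ (by omega), hY2]
    intro e
    apply hc
    show u * t ^ (r + 1) = t ^ (r + 1) * u
    have : t ^ (r + 1) * u * (t ^ (r + 2))⁻¹ * t ^ 1 = t ^ (r + 1) * u * (t ^ (r + 1))⁻¹ := by group
    rw [this, pow_zero, one_mul] at e
    rw [← mul_inv_eq_iff_eq_mul.1 e]

lemma comm_ne_top [Nontrivial G] (hab : ∀ H : Subgroup G, H ≠ ⊤ → ∀ a ∈ H, ∀ b ∈ H, a * b = b * a) :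
    commutator G ≠ ⊤ := by
  by_cases hS : ∀ (p : ℕ) (_hp : Fact p.Prime) (P : Sylow p G), (↑P : Subgroup G).Normal
  · have : Group.IsNilpotent G := (Group.isNilpotent_of_finite_tfae.out 3 0).1 hS
    exact (Group.IsSolvable.commutator_lt_top_of_nontrivial G).ne
  · push Not at hS
    obtain ⟨p, hp, P, hP⟩ := hS
    have hN : Subgroup.normalizer (P : Set G) ≠ ⊤ := fun e => hP (Subgroup.normalizer_eq_top_iff.1 e)
    have hle : Subgroup.normalizer (P : Set G) ≤ Subgroup.centralizer (P : Set G) := by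
      intro a ha
      rw [Subgroup.mem_centralizer_iff]
      intro b hb
      exact hab _ hN b (Subgroup.le_normalizer hb) a ha
    have hc := MonoidHom.ker_transferSylow_isComplement' P hle
    intro htop
    have hker : (MonoidHom.transferSylow P hle).ker = ⊤ := by
      rw [eq_top_iff, ← htop, commutator_def, Subgroup.commutator_le]
      intro a _ b _
      rw [MonoidHom.mem_ker, map_commutatorElement, commutatorElement_eq_one_iff_mul_comm]
      apply Subtype.ext
      exact hab _ hN _ (Subgroup.le_normalizer (Subtype.property _)) _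
        (Subgroup.le_normalizer (Subtype.property _))
    rw [hker] at hc
    have := Subgroup.isComplement'_top_left.1 hc
    apply hP
    rw [this]; infer_instance

lemma adm_min (h : Odd (Nat.card G)) (hna : ¬ ∀ a b : G, a * b = b * a)
    (hab : ∀ H : Subgroup G, H ≠ ⊤ → ∀ a ∈ H, ∀ b ∈ H, a * b = b * a) : Adm G := by
  classical
  have hnt : Nontrivial G := by
    by_contra hn
    have := not_nontrivial_iff_subsingleton.1 hn
    exact hna fun a b => Subsingleton.elim _ _
  obtain ⟨M, hM, hle⟩ := (eq_top_or_exists_le_coatom (commutator G)).resolve_left (comm_ne_top hab)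
  have hMn : M.Normal := Subgroup.Normal.of_commutator_le G hle
  obtain ⟨t0, ht0⟩ : ∃ t0, t0 ∉ M := by
    by_contra hc; push Not at hc
    exact hM.1 ((Subgroup.eq_top_iff' M).2 hc)
  have hcyc : IsCyclic (G ⧸ M) := by
    refine ⟨⟨(t0 : G ⧸ M), fun x => ?_⟩⟩
    have h1 : M < (Subgroup.zpowers (t0 : G ⧸ M)).comap (QuotientGroup.mk' M) := by
      refine lt_of_le_of_ne ?_ ?_
      · intro m hm
        rw [Subgroup.mem_comap, QuotientGroup.mk'_apply, (QuotientGroup.eq_one_iff m).2 hm]
        exact Subgroup.one_mem _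
      · intro e
        apply ht0
        rw [e, Subgroup.mem_comap]
        exact Subgroup.mem_zpowers _
    have h2 := hM.2 _ h1
    obtain ⟨g, rfl⟩ := QuotientGroup.mk_surjective x
    have : g ∈ (Subgroup.zpowers (t0 : G ⧸ M)).comap (QuotientGroup.mk' M) := by
      rw [h2]; exact Subgroup.mem_top _
    exact this
  set q := Nat.card (G ⧸ M) with hq
  let e := zmodCyclicMulEquiv hcyc
  let k : G → ZMod q := fun g => Multiplicative.toAdd (e.symm (g : G ⧸ M))
  have hk : ∀ a b, k (a * b) = k a + k b := fun a b => by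
    simp only [k, QuotientGroup.mk_mul, map_mul, toAdd_mul]
  have hker : ∀ g, k g = 0 ↔ g ∈ M := fun g => by
    simp only [k, toAdd_eq_zero, EmbeddingLike.map_eq_one_iff, QuotientGroup.eq_one_iff]
  obtain ⟨t, ht⟩ := QuotientGroup.mk_surjective (e (Multiplicative.ofAdd 1))
  have hkt : k t = 1 := by simp only [k, ht]; simp
  have hqdvd : q ∣ Nat.card G := Subgroup.card_quotient_dvd_card M
  have hqodd : Odd q := h.of_dvd_nat hqdvd
  have hq1 : q ≠ 1 := by
    intro e1
    have : Subsingleton (G ⧸ M) := (Nat.card_eq_one_iff_unique.1 e1).1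
    exact ht0 ((QuotientGroup.eq_one_iff t0).1 (Subsingleton.elim _ _))
  have hq3 : 3 ≤ q := by obtain ⟨s, hs⟩ := hqodd; omega
  have : NeZero q := ⟨by omega⟩
  have hk1 : k 1 = 0 := (hker 1).2 M.one_mem
  have hki : ∀ a, k a⁻¹ = - k a := fun a => by
    have := hk a a⁻¹
    rw [mul_inv_cancel, hk1] at this
    linear_combination -this
  have hkp : ∀ n : ℕ, k (t ^ n) = n := by
    intro n
    induction n with
    | zero => simpa using hk1
    | succ n ih => rw [pow_succ, hk, ih, hkt]; push_cast; ring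
  have hMc : ∀ a ∈ M, ∀ b ∈ M, Commute a b := hab M hM.1
  obtain ⟨u, huM, hu⟩ : ∃ u ∈ M, ¬ Commute u t := by
    by_contra hc; push Not at hc
    apply hna
    have hdec : ∀ g : G, ∃ n : ℕ, ∃ m ∈ M, g = t ^ n * m := by
      intro g
      refine ⟨(k g).val, (t ^ (k g).val)⁻¹ * g, ?_, by simp⟩
      rw [← hker, hk, hki, hkp, ZMod.natCast_zmod_val]; ring
    intro a b
    obtain ⟨n, m, hm, rfl⟩ := hdec a
    obtain ⟨n', m', hm', rfl⟩ := hdec b
    exact Commute.mul_left (Commute.mul_right (Commute.pow_pow_self t n n') ((hc m' hm').symm.pow_left n))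
      (Commute.mul_right ((hc m hm).pow_right n') (hMc m hm m' hm'))
  refine adm_of_hom h q hqodd hq3 k hk t u hkt ((hker u).2 huM) ?_
  intro hc
  apply hu
  have h1 : Commute u (t ^ q) := hMc u huM _ ((hker _).1 (by rw [hkp]; exact ZMod.natCast_self q))
  have h2 : t * t = (t ^ (q - 2))⁻¹ * t ^ q := by
    rw [eq_inv_mul_iff_mul_eq, ← pow_two, ← pow_add]; congr 1; omega
  have h3 : t * t ∈ Subgroup.centralizer {u} := by
    rw [Subgroup.mem_centralizer_iff]
    rintro _ rfl
    rw [h2]; exact (hc.inv_right.mul_right h1).eq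
  have h4 := sqrt_mem h _ h3
  rw [Subgroup.mem_centralizer_iff] at h4
  exact h4 u rfl

end Aux

lemma adm_all (n : ℕ) : ∀ (G : Type) [Group G] [Finite G], Nat.card G = n → Odd (Nat.card G) →
    (¬ ∀ a b : G, a * b = b * a) → Adm G := by
  induction n using Nat.strong_induction_on with
  | _ n ih =>
    intro G _ _ hn h hna
    by_cases hab : ∀ H : Subgroup G, H ≠ ⊤ → ∀ a ∈ H, ∀ b ∈ H, a * b = b * a
    · exact adm_min h hna hab
    · push Not at hab
      obtain ⟨H, hH, a, ha, b, hb, hne⟩ := hab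
      have hlt : Nat.card H < n := by
        rw [← hn]
        refine lt_of_le_of_ne (Subgroup.card_le_card_group H) fun e => hH ?_
        exact Subgroup.eq_top_of_card_eq H e
      refine adm_of_sub h H (ih _ hlt H rfl (h.of_dvd_nat (Subgroup.card_subgroup_dvd_card H)) ?_)
      intro hc
      exact hne (congrArg Subtype.val (hc ⟨a, ha⟩ ⟨b, hb⟩))

theorem result (G : Type) [Group G] [Finite G] (hodd : Odd (Nat.card G))
    (hna : ∃ a b : G, a * b ≠ b * a) :
    ∃ θ : Equiv.Perm G, (Set.range fun x => x * θ x).ncard = Nat.card G - 1 := by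
  obtain ⟨θ, z, hz⟩ := adm_all _ G rfl hodd (by push Not; exact hna)
  refine ⟨θ, ?_⟩
  have : (Set.range fun x => x * θ x) = Set.univ \ {z} := by
    ext y; simp [hz y]
  rw [this, Set.ncard_sdiff_singleton_of_mem (Set.mem_univ z), Set.ncard_univ]

end Pool.Agent.Results.MP_053bca_co.AllNonabelian
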